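import Pool.Agent.H45.EGD.S1

/-!
# EGD: modules DUA, DEF
-/

set_option autoImplicit false

namespace Pool.EGD

open MvPolynomial Pool.EGH

namespace Dua62

variable {K : Type} [Field K] {N n : ℕ} {Q : Ideal (PR K N)}

theorem fin_of_le {i : ℕ} {V : Submodule K (PR K N ⧸ Q)} (hV : V ≤ gp Q i) :
    Module.Finite K V := by
  have := (h_gpm K N Q).1 i
  exact Submodule.finiteDimensional_of_le hV

theorem mul_le_gp {i j : ℕ} {V : Submodule K (PR K N ⧸ Q)} (hV : V ≤ gp Q i) :
    gp Q j * V ≤ gp Q (j + i) := by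
  rw [← (h_gpm K N Q).2.1 j i]
  exact Submodule.mul_le.2 fun a ha b hb => Submodule.mul_mem_mul ha (hV hb)

theorem rank_le {i : ℕ} {V W : Submodule K (PR K N ⧸ Q)} (hW : W ≤ gp Q i) (h : V ≤ W) :
    Module.finrank K V ≤ Module.finrank K W := by
  have := fin_of_le hW
  exact Submodule.finrank_mono h

end Dua62

open Dua62

theorem t_def (h1 : PG1Stmt) (h2 : PENStmt) : DEFStmt := by
  intro K _ _ N n i Q I hQ hI hQI
  have : Infinite K := IsAlgClosed.instInfinite
  obtain ⟨k1, k2, k3⟩ := h_img K N n Q I hQ hI hQI i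
  obtain ⟨k4, k5, -⟩ := h_img K N n Q I hQ hI hQI (i + 1)
  have k6 : dg Q (im Q I i) ≤ Module.finrank K ↥(im Q I (i + 1)) := rank_le k4 k3
  constructor
  · intro a b
    have hne : im Q I i ≠ ⊥ := by
      intro h
      rw [h, finrank_bot] at k2
      omega
    have := h1 K N n i Q (im Q I i) hQ k1 hne
    omega
  · intro a
    have := h2 K N n i Q (im Q I i) hQ k1 (by omega)
    omega

theorem t_dua (h1 : PG1Stmt) (h2 : PENStmt) : DUAStmt := by
  intro K _ _ N n i Q I hQ hI hQI
  have : Infinite K := IsAlgClosed.instInfinite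
  obtain ⟨k1, k2, k3⟩ := h_img K N n Q I hQ hI hQI i
  obtain ⟨k4, k5, -⟩ := h_img K N n Q I hQ hI hQI (i + 1)
  rcases Nat.lt_or_ge n (i + 1) with hi | hi
  · rw [Nat.choose_eq_zero_of_lt hi] at k5
    constructor <;> intro _ <;> omega
  obtain ⟨W, hW⟩ : ∃ W, W = ann Q (n - (i + 1)) (im Q I (i + 1)) := ⟨_, rfl⟩
  have hWle : W ≤ gp Q (n - (i + 1)) := by
    rw [hW]
    exact fun x hx => hx.1
  have h3 := h_ann K N n Q hQ (i + 1) (n - (i + 1)) 0 (by omega) (im Q I (i + 1)) k4
  rw [(h_gpm K N Q).2.2.1, ← hW, Nat.choose_symm hi] at h3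
  have h4 := h_ann K N n Q hQ i (n - i) 0 (by omega) (im Q I i) k1
  rw [(h_gpm K N Q).2.2.1, Nat.choose_symm (by omega)] at h4
  have h5 : dg Q W ≤ Module.finrank K ↥(ann Q (n - i) (im Q I i)) := by
    refine rank_le (i := n - i) (fun x hx => hx.1) ?_
    rw [Submodule.mul_le]
    intro l hl w hw
    refine ⟨?_, fun v hv => ?_⟩
    · have := mul_le_gp (j := 1) hWle (Submodule.mul_mem_mul hl hw)
      have e : 1 + (n - (i + 1)) = n - i := by omega
      rwa [e] at this
    · rw [hW] at hw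
      have e : l * w * v = w * (l * v) := by ring
      rw [e]
      exact hw.2 _ (k3 (Submodule.mul_mem_mul hl hv))
  constructor
  · intro a
    by_contra hcon
    have hne : W ≠ ⊥ := by
      intro h
      rw [h, finrank_bot] at h3
      omega
    have := h1 K N n _ Q W hQ hWle hne
    omega
  · intro a
    by_contra hcon
    have := h2 K N n _ Q W hQ hWle (by omega)
    omega

end Pool.EGD
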