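import Pool.Agent.H45.EGD.S1

/-!
# EGD: modules UPB and MA2
-/

set_option autoImplicit false

namespace Pool.EGD

open Pool.EGH Pool.EGC

theorem t_ma2 : MA2Stmt := by
  intro i m _ _ h
  by_contra hcon
  have h0 : ∑ k ∈ Finset.Icc 1 i, (m k).choose (k + 1) = 0 := by omega
  have h1 : ∑ k ∈ Finset.Icc 1 i, (m k).choose k ≤ ∑ k ∈ Finset.Icc 1 i, 1 := by
    refine Finset.sum_le_sum fun k hk => ?_
    have h2 : (m k).choose (k + 1) = 0 := (Finset.sum_eq_zero_iff.1 h0) k hk
    have h3 : m k < k + 1 := Nat.choose_eq_zero_iff.1 h2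
    rcases Nat.lt_or_ge (m k) k with h4 | h4
    · rw [Nat.choose_eq_zero_of_lt h4]
      exact zero_le_one
    · have h5 : m k = k := by omega
      rw [h5, Nat.choose_self]
  rw [Finset.sum_const, Nat.card_Icc, smul_eq_mul, mul_one] at h1
  omega

namespace Upb62

variable {n : ℕ}

/-- The neighbours of `x` above. -/
noncomputable def U (x : Fin n → ℕ) : Finset (Fin n → ℕ) := by
  classical
  exact (Finset.univ.filter fun j => x j = 0).image fun j => x + Pi.single j 1

theorem mem_mo (i : ℕ) (x : Fin n → ℕ) :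
    x ∈ Mo (cp n n) i ↔ ∑ j, x j = i ∧ ∀ j, x j ≤ 1 := by
  rw [(E8.f_mom n (cp n n) i x).1]
  constructor
  · rintro ⟨h1, h2⟩
    exact ⟨h1, fun j => h2 j (E8.cp_true n j)⟩
  · rintro ⟨h1, h2⟩
    exact ⟨h1, fun j _ => h2 j⟩

theorem card_U {i : ℕ} {x : Fin n → ℕ} (hx : x ∈ Mo (cp n n) i) : (U x).card + i ≤ n := by
  classical
  obtain ⟨h1, h2⟩ := (mem_mo i x).1 hx
  have h3 : (U x).card ≤ (Finset.univ.filter fun j => x j = 0).card := by
    unfold U
    convert Finset.card_image_le
  have h4 : (Finset.univ.filter fun j => x j = 0).card + i = n := by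
    rw [← h1, Finset.card_filter, ← Finset.sum_add_distrib]
    calc ∑ j : Fin n, ((if x j = 0 then 1 else 0) + x j) = ∑ j : Fin n, 1 := by
          refine Finset.sum_congr rfl fun j _ => ?_
          have := h2 j
          split_ifs with h
          · rw [h]
          · omega
      _ = n := by simp
  omega

theorem up_sub {i : ℕ} {A : Finset (Fin n → ℕ)} {y : Fin n → ℕ} (hy : y ∈ up (cp n n) i A) :
    ∃ x ∈ A, y ∈ U x := by
  classical
  obtain ⟨h1, x, hx, j, hj⟩ := ((E8.f_mom n (cp n n) i y).2 A y).1 hy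
  refine ⟨x, hx, ?_⟩
  have h2 := ((mem_mo (i + 1) y).1 h1).2 j
  rw [hj, Pi.add_apply, Pi.single_eq_same] at h2
  unfold U
  refine Finset.mem_image.2 ⟨j, Finset.mem_filter.2 ⟨Finset.mem_univ _, by omega⟩, hj.symm⟩

end Upb62

open Upb62 in
theorem t_upb : UPBStmt := by
  classical
  intro n i B hB
  constructor
  · intro h1
    obtain ⟨x, hx⟩ := Finset.card_eq_one.1 h1
    have hxM : x ∈ Mo (cp n n) i := hB.1 (by rw [hx]; exact Finset.mem_singleton_self _)
    have h2 : up (cp n n) i B ⊆ U x := by
      intro y hy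
      obtain ⟨x', hx', h3⟩ := up_sub hy
      rw [hx, Finset.mem_singleton] at hx'
      rwa [hx'] at h3
    have := Finset.card_le_card h2
    have := card_U hxM
    omega
  · intro h2
    obtain ⟨x, z, hxz, hB2⟩ := Finset.card_eq_two.1 h2
    have hxM : x ∈ Mo (cp n n) i := hB.1 (by rw [hB2]; simp)
    have hzM : z ∈ Mo (cp n n) i := hB.1 (by rw [hB2]; simp)
    obtain ⟨x1, x2⟩ := (mem_mo i x).1 hxM
    obtain ⟨z1, z2⟩ := (mem_mo i z).1 hzM
    have hlt : ∀ a b : Fin n → ℕ, ∑ j, a j = ∑ j, b j → a ≠ b → ∃ j, a j < b j := by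
      intro a b hab hne
      by_contra hcon
      push Not at hcon
      refine hne (funext fun j => ?_)
      have := (Finset.sum_eq_sum_iff_of_le (s := Finset.univ) (f := b) (g := a)
        fun j _ => hcon j).1 hab.symm
      exact (this j (Finset.mem_univ _)).symm
    obtain ⟨a, ha⟩ := hlt z x (by rw [x1, z1]) hxz.symm
    obtain ⟨b, hb⟩ := hlt x z (by rw [x1, z1]) hxz
    have ha1 : x a = 1 := by
      have := x2 a
      omega
    have hb0 : x b = 0 := by
      have := z2 b
      omega
    have hab : a ≠ b := by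
      rintro rfl
      omega
    -- the other vector
    obtain ⟨y, hy⟩ : ∃ y : Fin n → ℕ, y = fun j => if j = a then 0 else if j = b then 1 else x j :=
      ⟨_, rfl⟩
    have hya : y a = 0 := by rw [hy]; simp
    have hyb : y b = 1 := by rw [hy]; simp [hab.symm]
    have hyo : ∀ j, j ≠ a → j ≠ b → y j = x j := fun j h3 h4 => by rw [hy]; simp [h3, h4]
    have hsw : x + Pi.single b 1 = y + Pi.single a 1 := by
      funext j
      by_cases h3 : j = a
      · subst h3
        simp [hya, ha1, hab]
      · by_cases h4 : j = b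
        · subst h4
          simp [hyb, hb0, h3]
        · simp [hyo j h3 h4, h3, h4]
    have hyM : y ∈ Mo (cp n n) i := by
      refine (mem_mo i y).2 ⟨?_, fun j => ?_⟩
      · have h3 : ∑ j, (x + Pi.single b 1 : Fin n → ℕ) j = ∑ j, (y + Pi.single a 1 : Fin n → ℕ) j := by
          rw [hsw]
        simp only [Pi.add_apply, Finset.sum_add_distrib, Finset.sum_pi_single',
          Finset.mem_univ, if_true] at h3
        omega
      · by_cases h3 : j = a
        · rw [h3, hya]
          exact zero_le_one
        · by_cases h4 : j = b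
          · rw [h4, hyb]
          · rw [hyo j h3 h4]
            exact x2 j
    have hxy : x ≠ y := by
      intro h
      rw [h, hya] at ha1
      omega
    have h3 := E8.f_clt n (cp n n) (fun j k _ _ => E8.cp_true n j) i {x, y} B (by
      intro w hw
      simp only [Finset.mem_insert, Finset.mem_singleton] at hw
      rcases hw with rfl | rfl
      · exact hxM
      · exact hyM) hB (by rw [h2, Finset.card_pair hxy])
    have h4 : up (cp n n) i {x, y} ⊆ U x ∪ U y := by
      intro w hw
      obtain ⟨x', hx', h5⟩ := up_sub hw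
      simp only [Finset.mem_insert, Finset.mem_singleton] at hx'
      rcases hx' with rfl | rfl
      · exact Finset.mem_union_left _ h5
      · exact Finset.mem_union_right _ h5
    have h5 := Finset.card_le_card h4
    have h6 := Finset.card_union_add_card_inter (U x) (U y)
    have h7 : 0 < (U x ∩ U y).card := by
      refine Finset.card_pos.2 ⟨x + Pi.single b 1, Finset.mem_inter.2 ⟨?_, ?_⟩⟩
      · unfold U
        exact Finset.mem_image.2 ⟨b, Finset.mem_filter.2 ⟨Finset.mem_univ _, hb0⟩, rfl⟩
      · unfold U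
        exact Finset.mem_image.2 ⟨a, Finset.mem_filter.2 ⟨Finset.mem_univ _, hya⟩, hsw.symm⟩
    have h8 := card_U hxM
    have h9 := card_U hyM
    omega

end Pool.EGD
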